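import Mathlib
import Pool.Agent.Lib.MP_85963d_gt.H72.Geo

/-!
# Perimeters of central sections of general symmetric convex bodies: finiteness, positivity,
scaling, and the relative boundary in the plane
-/

set_option autoImplicit false

open MeasureTheory Set Filter Topology
open scoped Real Pointwise NNReal ENNReal

namespace Pool.Agent.MP85963d.H73

/-- the unit gauge sphere in the plane orthogonal to `e` -/
def gs (K : Set E3) (e : E3) : Set E3 := {x | inner ℝ x e = (0:ℝ) ∧ gauge K x = 1}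

theorem zero_mem_nhds {K : Set E3} (hc : Convex ℝ K) (hi : (interior K).Nonempty)
    (hs : -K = K) : K ∈ 𝓝 (0 : E3) := by
  obtain ⟨x, hx⟩ := hi
  have hx' : -x ∈ interior K := by
    have h1 : interior (-K) = - interior K := by
      have := (Homeomorph.neg E3).preimage_interior K
      simpa using this.symm
    rw [hs] at h1
    rw [h1, Set.mem_neg, neg_neg]
    exact hx
  have h2 := hc.interior hx hx' (by norm_num : (0:ℝ) ≤ 1/2) (by norm_num : (0:ℝ) ≤ 1/2)
    (by norm_num)
  have h3 : (1/2 : ℝ) • x + (1/2 : ℝ) • (-x) = 0 := by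
    rw [smul_neg, add_neg_cancel]
  rw [h3] at h2
  exact mem_interior_iff_mem_nhds.1 h2

/-- the relative boundary of a central section, as topological boundary in the plane -/
theorem relBoundary_eq {K : Set E3} (hK : IsCompact K) (hc : Convex ℝ K) (h0 : K ∈ 𝓝 (0:E3))
    (e : E3) (P : Set E3) (hP : P = {x : E3 | inner ℝ e x = (0:ℝ)}) :
    {x : E3 | x ∈ P ∧ ∀ ε > 0, (∃ y ∈ K ∩ P, dist x y < ε) ∧
      ∃ y ∈ P \ (K ∩ P), dist x y < ε} = gs K e := by
  subst hP
  ext x
  constructor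
  · rintro ⟨hx, h⟩
    have hx' : inner ℝ e x = (0:ℝ) := hx
    refine ⟨by rw [real_inner_comm]; exact hx', le_antisymm ?_ ?_⟩
    · rw [gauge_le_one_iff_mem_closure hc h0]
      rw [Metric.mem_closure_iff]
      intro ε hε
      obtain ⟨⟨y, hy, hd⟩, -⟩ := h ε hε
      exact ⟨y, hy.1, hd⟩
    · by_contra hlt
      rw [not_le, gauge_lt_one_iff_mem_interior hc h0] at hlt
      obtain ⟨ε, hε, hb⟩ := Metric.isOpen_iff.1 isOpen_interior x hlt
      obtain ⟨-, y, hy, hd⟩ := h ε hε
      apply hy.2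
      refine ⟨interior_subset (hb ?_), hy.1⟩
      rw [Metric.mem_ball, dist_comm]
      exact hd
  · rintro ⟨hx, h1⟩
    have hx' : inner ℝ e x = (0:ℝ) := by rw [real_inner_comm]; exact hx
    have hxK : x ∈ K := by
      have := (gauge_le_one_iff_mem_closure hc h0).1 h1.le
      rwa [hK.isClosed.closure_eq] at this
    refine ⟨hx', fun ε hε => ⟨⟨x, ⟨hxK, hx'⟩, by simpa using hε⟩, ?_⟩⟩
    have hx0 : x ≠ 0 := by
      rintro rfl
      rw [gauge_zero] at h1
      exact zero_ne_one h1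
    have hn : 0 < ‖x‖ := norm_pos_iff.2 hx0
    have hs : 0 < ε / (2 * ‖x‖) := by positivity
    refine ⟨(1 + ε / (2 * ‖x‖)) • x, ⟨?_, ?_⟩, ?_⟩
    · change inner ℝ e ((1 + ε / (2 * ‖x‖)) • x) = (0:ℝ)
      rw [inner_smul_right, hx', mul_zero]
    · rintro ⟨hy, -⟩
      have h2 := gauge_le_one_of_mem hy
      rw [gauge_smul_of_nonneg (by linarith), h1, smul_eq_mul, mul_one] at h2
      linarith
    · rw [dist_eq_norm]
      have : x - (1 + ε / (2 * ‖x‖)) • x = (-(ε / (2 * ‖x‖))) • x := by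
        rw [add_smul, one_smul, neg_smul]; abel
      rw [this, norm_smul, norm_neg, Real.norm_of_nonneg hs.le]
      field_simp
      linarith

/-- plane coordinates -/
theorem exists_uv {e : E3} (he : e ≠ 0) : ∃ u v : E3, ‖u‖ = 1 ∧ ‖v‖ = 1 ∧ inner ℝ u v = (0:ℝ) ∧
    inner ℝ u e = (0:ℝ) ∧ inner ℝ v e = (0:ℝ) ∧
    ∀ x : E3, inner ℝ x e = (0:ℝ) → x = (inner ℝ u x : ℝ) • u + (inner ℝ v x : ℝ) • v := by
  obtain ⟨z, hz, h⟩ := H72.exists_fe he
  have he' : ‖e‖ ≠ 0 := norm_ne_zero_iff.2 he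
  refine ⟨fu z, fv z, norm_fu hz, norm_fv hz, inner_fu_fv hz, ?_, ?_, ?_⟩
  · rw [h, inner_smul_right, inner_fu_fe hz, mul_zero]
  · rw [h, inner_smul_right, inner_fv_fe hz, mul_zero]
  · intro x hx
    apply H72.expand3 (norm_fu hz) (norm_fv hz) (norm_fe hz) (inner_fu_fv hz) (inner_fu_fe hz)
      (inner_fv_fe hz)
    rw [h, inner_smul_right] at hx
    exact (mul_eq_zero.1 hx).resolve_left he'

theorem norm_circle {u v : E3} (hu : ‖u‖ = 1) (hv : ‖v‖ = 1) (huv : inner ℝ u v = (0:ℝ))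
    (t : ℝ) : ‖Real.cos t • u + Real.sin t • v‖ = 1 := by
  have h : ‖Real.cos t • u + Real.sin t • v‖ ^ 2 = 1 := by
    rw [norm_add_sq_real, norm_smul, norm_smul, hu, hv, inner_smul_left, inner_smul_right, huv]
    simp [sq_abs]
  nlinarith [norm_nonneg (Real.cos t • u + Real.sin t • v)]

/-- perimeters are finite -/
theorem per_lt_top {K : Set E3} (hK : IsCompact K) (hc : Convex ℝ K) (h0 : K ∈ 𝓝 (0:E3))
    {e : E3} (he : e ≠ 0) : μH[1] (gs K e) < ⊤ := by
  obtain ⟨u, v, hu, hv, huv, hue, hve, hexp⟩ := exists_uv he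
  obtain ⟨L, hL⟩ := hc.lipschitz_gauge h0
  obtain ⟨R, hR⟩ := hK.isBounded.subset_closedBall (0 : E3)
  have habs : Absorbent ℝ K := absorbent_nhds_zero h0
  set R' := max R 1 with hR'
  have hR'0 : 0 < R' := lt_of_lt_of_le one_pos (le_max_right _ _)
  have hsub : K ⊆ Metric.closedBall 0 R' := hR.trans (Metric.closedBall_subset_closedBall (le_max_left _ _))
  have hlow : ∀ x : E3, ‖x‖ / R' ≤ gauge K x := fun x =>
    le_gauge_of_subset_closedBall habs hR'0.le hsub
  set c : ℝ → E3 := fun t => Real.cos t • u + Real.sin t • v with hcdef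
  have hcn : ∀ t, ‖c t‖ = 1 := norm_circle hu hv huv
  have hcl : ∀ s t, ‖c s - c t‖ ≤ 2 * |s - t| := by
    intro s t
    have h1 : c s - c t = (Real.cos s - Real.cos t) • u + (Real.sin s - Real.sin t) • v := by
      simp only [hcdef]; module
    rw [h1]
    refine (norm_add_le _ _).trans ?_
    rw [norm_smul, norm_smul, hu, hv, mul_one, mul_one, Real.norm_eq_abs, Real.norm_eq_abs]
    have a1 : |Real.cos s - Real.cos t| ≤ |s - t| := by
      have := Real.lipschitzWith_cos.dist_le_mul s t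
      simpa [Real.dist_eq] using this
    have a2 : |Real.sin s - Real.sin t| ≤ |s - t| := by
      have := Real.lipschitzWith_sin.dist_le_mul s t
      simpa [Real.dist_eq] using this
    linarith
  have hm : ∀ t, 1 / R' ≤ gauge K (c t) := fun t => by
    have := hlow (c t); rwa [hcn t] at this
  have hpos : ∀ t, 0 < gauge K (c t) := fun t => lt_of_lt_of_le (by positivity) (hm t)
  set φ : ℝ → E3 := fun t => (gauge K (c t))⁻¹ • c t with hφ
  have hinv : ∀ t, (gauge K (c t))⁻¹ ≤ R' := fun t => by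
    rw [inv_le_comm₀ (hpos t) hR'0]
    have := hm t
    rwa [one_div] at this
  have hφl : ∀ s t, ‖φ s - φ t‖ ≤ (2 * R' + R' * R' * (L * 2)) * |s - t| := by
    intro s t
    have h1 : φ s - φ t = (gauge K (c s))⁻¹ • (c s - c t)
        + ((gauge K (c s))⁻¹ - (gauge K (c t))⁻¹) • c t := by
      simp only [hφ]; module
    rw [h1]
    refine (norm_add_le _ _).trans ?_
    rw [norm_smul, norm_smul, hcn t, mul_one, Real.norm_eq_abs, Real.norm_eq_abs,
      abs_of_pos (inv_pos.2 (hpos s))]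
    have b1 : (gauge K (c s))⁻¹ * ‖c s - c t‖ ≤ R' * (2 * |s - t|) :=
      mul_le_mul (hinv s) (hcl s t) (norm_nonneg _) hR'0.le
    have b2 : |(gauge K (c s))⁻¹ - (gauge K (c t))⁻¹|
        ≤ R' * R' * (L * (2 * |s - t|)) := by
      rw [inv_sub_inv (hpos s).ne' (hpos t).ne', abs_div, abs_of_pos (mul_pos (hpos s) (hpos t)),
        div_eq_mul_inv, mul_inv, mul_comm]
      have d1 : |gauge K (c t) - gauge K (c s)| ≤ L * (2 * |s - t|) := by
        have := hL.dist_le_mul (c t) (c s)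
        rw [Real.dist_eq, dist_eq_norm, norm_sub_rev] at this
        exact this.trans (mul_le_mul_of_nonneg_left (hcl s t) L.coe_nonneg)
      exact mul_le_mul (mul_le_mul (hinv s) (hinv t) (inv_pos.2 (hpos t)).le hR'0.le) d1
        (abs_nonneg _) (by positivity)
    nlinarith
  set C : ℝ≥0 := Real.toNNReal (2 * R' + R' * R' * (L * 2)) with hC
  have hLip : LipschitzWith C φ := by
    apply LipschitzWith.of_dist_le_mul
    intro s t
    rw [Real.dist_eq, dist_eq_norm, hC, Real.coe_toNNReal _ (by positivity)]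
    exact hφl s t
  have hsubF : gs K e ⊆ φ '' Icc 0 (2 * π) := by
    rintro x ⟨hx, h1⟩
    obtain ⟨t, ht, r, hr, ha, hb⟩ := H72.exists_polar (inner ℝ u x) (inner ℝ v x)
    have hxr : x = r • c t := by
      simp only [hcdef]
      rw [smul_add, smul_smul, smul_smul, ← ha, ← hb]
      exact hexp x hx
    refine ⟨t, ⟨ht.1, ht.2.le⟩, ?_⟩
    have h2 : r * gauge K (c t) = 1 := by
      rw [hxr, gauge_smul_of_nonneg hr, smul_eq_mul] at h1
      exact h1
    simp only [hφ]
    conv_rhs => rw [hxr]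
    rw [← eq_inv_of_mul_eq_one_left h2]
  calc μH[1] (gs K e) ≤ μH[1] (φ '' Icc 0 (2 * π)) := measure_mono hsubF
    _ ≤ (C : ℝ≥0∞) ^ (1:ℝ) * μH[1] (Icc (0:ℝ) (2 * π)) :=
        (hLip.lipschitzOnWith (s := Icc 0 (2*π))).hausdorffMeasure_image_le zero_le_one
    _ < ⊤ := by
        rw [hausdorffMeasure_real, Real.volume_Icc, ENNReal.rpow_one]
        exact ENNReal.mul_lt_top ENNReal.coe_lt_top ENNReal.ofReal_lt_top

/-- perimeters are positive -/
theorem per_pos {K : Set E3} (hK : IsCompact K) (hc : Convex ℝ K) (h0 : K ∈ 𝓝 (0:E3))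
    {e : E3} (he : e ≠ 0) : 0 < μH[1] (gs K e) := by
  obtain ⟨u, v, hu, hv, huv, hue, hve, hexp⟩ := exists_uv he
  obtain ⟨R, hR⟩ := hK.isBounded.subset_closedBall (0 : E3)
  have habs : Absorbent ℝ K := absorbent_nhds_zero h0
  set R' := max R 1 with hR'
  have hR'0 : 0 < R' := lt_of_lt_of_le one_pos (le_max_right _ _)
  have hsub : K ⊆ Metric.closedBall 0 R' := hR.trans (Metric.closedBall_subset_closedBall (le_max_left _ _))
  have hlow : ∀ x : E3, ‖x‖ / R' ≤ gauge K x := fun x =>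
    le_gauge_of_subset_closedBall habs hR'0.le hsub
  obtain ⟨r, hr, hball⟩ := Metric.mem_nhds_iff.1 h0
  have hup : ∀ x : E3, r * gauge K x ≤ ‖x‖ := fun x => mul_gauge_le_norm hball
  have hcont : Continuous (gauge K) := continuous_gauge hc h0
  have hLip : LipschitzWith 1 (fun x : E3 => (inner ℝ u x : ℝ)) := by
    apply LipschitzWith.of_dist_le_mul
    intro x y
    rw [Real.dist_eq, ← inner_sub_right, dist_eq_norm]
    have := abs_real_inner_le_norm u (x - y)
    rw [hu, one_mul] at this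
    simpa using this
  have hsubI : Icc (0:ℝ) r ⊆ (fun x : E3 => (inner ℝ u x : ℝ)) '' gs K e := by
    intro s hs
    have hcs : Continuous fun t : ℝ => gauge K (s • u + t • v) :=
      hcont.comp (continuous_const.add (continuous_id.smul continuous_const))
    have huu : inner ℝ u u = (1:ℝ) := by rw [real_inner_self_eq_norm_sq, hu]; norm_num
    have hvv : inner ℝ v v = (1:ℝ) := by rw [real_inner_self_eq_norm_sq, hv]; norm_num
    have hvu : inner ℝ v u = (0:ℝ) := by rw [real_inner_comm]; exact huv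
    have h1 : gauge K (s • u + (0:ℝ) • v) ≤ 1 := by
      rw [zero_smul, add_zero]
      have := hup (s • u)
      rw [norm_smul, hu, mul_one, Real.norm_of_nonneg hs.1] at this
      nlinarith [hs.2]
    have h2 : 1 ≤ gauge K (s • u + R' • v) := by
      refine le_trans ?_ (hlow _)
      rw [le_div_iff₀ hR'0, one_mul]
      have h3 := abs_real_inner_le_norm v (s • u + R' • v)
      rw [inner_add_right, inner_smul_right, inner_smul_right, hvu, hvv, hv, mul_zero, zero_add,
        mul_one, one_mul, abs_of_pos hR'0] at h3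
      exact h3
    obtain ⟨t, -, ht⟩ := intermediate_value_Icc (a := 0) (b := R') hR'0.le hcs.continuousOn
      ⟨h1, h2⟩
    refine ⟨s • u + t • v, ⟨?_, ht⟩, ?_⟩
    · rw [inner_add_left, inner_smul_left, inner_smul_left, hue, hve]; simp
    · show inner ℝ u (s • u + t • v) = s
      rw [inner_add_right, inner_smul_right, inner_smul_right, huu, huv]; simp
  have h1 : μH[1] (Icc (0:ℝ) r) ≤ μH[1] (gs K e) := by
    calc μH[1] (Icc (0:ℝ) r) ≤ μH[1] ((fun x : E3 => (inner ℝ u x : ℝ)) '' gs K e) :=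
          measure_mono hsubI
      _ ≤ ((1:ℝ≥0) : ℝ≥0∞) ^ (1:ℝ) * μH[1] (gs K e) :=
          (hLip.lipschitzOnWith (s := gs K e)).hausdorffMeasure_image_le zero_le_one
      _ = μH[1] (gs K e) := by simp
  refine lt_of_lt_of_le ?_ h1
  rw [hausdorffMeasure_real, Real.volume_Icc]
  simpa using hr

/-- perimeters of dilates -/
theorem gs_smul {K : Set E3} {c : ℝ} (hc : 0 < c) (e : E3) : gs (c • K) e = c • gs K e := by
  ext x
  rw [Set.mem_smul_set_iff_inv_smul_mem₀ hc.ne']
  simp only [gs, Set.mem_setOf_eq, gauge_smul_left_of_nonneg hc.le, Pi.smul_apply, inner_smul_left,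
    gauge_smul_of_nonneg (inv_pos.2 hc).le]
  simp [hc.ne']

theorem per_smul {K : Set E3} {c : ℝ} (hc : 0 < c) (e : E3) :
    μH[1] (gs (c • K) e) = ENNReal.ofReal c * μH[1] (gs K e) := by
  rw [gs_smul hc, Measure.hausdorffMeasure_smul₀ zero_le_one hc.ne', NNReal.rpow_one]
  rw [ENNReal.smul_def, smul_eq_mul]
  congr 1
  rw [ENNReal.ofReal]
  congr 1
  ext
  simp [abs_of_pos hc, hc.le]

end Pool.Agent.MP85963d.H73
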